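import Pool.Agent.W126.RecMain

/-!
# Record gaps attached to increasing set functions
-/

set_option autoImplicit false

namespace Pool.Agent.J6H10.SF

open Finset Filter Topology Pool.Agent.H752R3.MT Pool.Agent.W126.RecSum Pool.Agent.W68.Mil
open Pool.Agent.H256R2.SC (ff)
open Pool.Agent.H312R2.RG.C3 (ff_tendsto)

/-- the union of the first `n` blocks -/
def un (Z : ℕ → Finset ℕ) (n : ℕ) : Finset ℕ := (range n).biUnion Z

/-- forward vectors -/
def gdF (H : ℝ → ℝ) (m q r k : ℕ) (β : Finset ℕ → ℝ) (ρ : (Fin k → Finset ℕ) → ℝ)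
    (Z : ℕ → Finset ℕ) : Prop :=
  (fun i : Fin m => ρ (fun l => Z l) * (β (un Z (k + 1 + (i + 1))) - β (un Z (k + 1 + i)))) ∈
    LimH H m q r

/-- reversed vectors -/
def gdR (H : ℝ → ℝ) (m q r k : ℕ) (β : Finset ℕ → ℝ) (ρ : (Fin k → Finset ℕ) → ℝ)
    (Z : ℕ → Finset ℕ) : Prop :=
  (fun i : Fin m => ρ (fun l => Z l) * (β (un Z (k + 1 + ((Fin.rev i : Fin m) + 1))) -
    β (un Z (k + 1 + (Fin.rev i : Fin m))))) ∈ LimH H m q r

/-- a set function which increases when larger elements are added -/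
def Inc (β : Finset ℕ → ℝ) : Prop :=
  ∀ A B : Finset ℕ, A.Nonempty → B.Nonempty → (∀ a ∈ A, ∀ b ∈ B, a < b) → β A < β (A ∪ B)

theorem un_succ (Z : ℕ → Finset ℕ) (n : ℕ) : un Z (n + 1) = un Z n ∪ Z n := by
  unfold un
  rw [Finset.range_add_one, Finset.biUnion_insert, Finset.union_comm]

theorem un_lt {Z : ℕ → Finset ℕ} (hZ : Blk Z) (n : ℕ) : ∀ a ∈ un Z n, ∀ b ∈ Z n, a < b := by
  intro a ha b hb
  obtain ⟨i, hi, hai⟩ := mem_biUnion.1 ha
  exact hZ.lt (mem_range.1 hi) a hai b hb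

theorem un_mono {β : Finset ℕ → ℝ} (hβ : Inc β) {Z : ℕ → Finset ℕ} (hZ : Blk Z) :
    StrictMono fun n => β (un Z (n + 1)) := by
  refine strictMono_nat_of_lt_succ fun n => ?_
  beta_reduce
  rw [un_succ Z (n + 1)]
  refine hβ _ _ ?_ (hZ.1 _) (un_lt hZ _)
  obtain ⟨a, ha⟩ := hZ.1 0
  exact ⟨a, mem_biUnion.2 ⟨0, mem_range.2 (Nat.succ_pos n), ha⟩⟩

/-- the scale and the set function fit together -/
def AdmS (H : ℝ → ℝ) (β : Finset ℕ → ℝ) : Prop :=
  (∀ c : ℝ, 0 < c → ∀ᶠ x : ℝ in atTop, H x ≤ c * ff x) ∨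
    ((∃ C : ℝ, ∀ᶠ x : ℝ in atTop, H x ≤ C * ff x) ∧ ∃ M : ℝ, ∀ A, β A ≤ M)

/-- room for `K` positions -/
theorem roomS {H : ℝ → ℝ} {β : Finset ℕ → ℝ} (hβ : Inc β) (hA : AdmS H β) {X : ℕ → Finset ℕ}
    (hX : Blk X) (k K : ℕ) (R : ℝ) (hR : 0 < R) (c : ℝ) (hc : 0 < c) :
    ∃ N, k ≤ N ∧ ∃ B : ℝ, 0 < B ∧ (∀ᶠ x : ℝ in atTop, B * H x ≤ c * ff x) ∧
      ∀ t ≤ K, R * (β (un X (N + t + 1)) - β (un X (N + 1))) ≤ B := by
  have hmono := (un_mono hβ hX).monotone
  rcases hA with h | ⟨⟨C, hC⟩, M, hM⟩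
  · have h0 : 0 ≤ R * (β (un X (k + K + 1)) - β (un X (k + 1))) :=
      mul_nonneg hR.le (sub_nonneg.2 (hmono (Nat.le_add_right k K)))
    refine ⟨k, le_rfl, R * (β (un X (k + K + 1)) - β (un X (k + 1))) + 1, by linarith, ?_, ?_⟩
    · have hB : 0 < R * (β (un X (k + K + 1)) - β (un X (k + 1))) + 1 := by linarith
      filter_upwards [h (c / (R * (β (un X (k + K + 1)) - β (un X (k + 1))) + 1)) (by positivity)]
        with x hx
      calc _ ≤ (R * (β (un X (k + K + 1)) - β (un X (k + 1))) + 1) *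
            (c / (R * (β (un X (k + K + 1)) - β (un X (k + 1))) + 1) * ff x) :=
              mul_le_mul_of_nonneg_left hx hB.le
        _ = c * ff x := by field_simp
    · intro t ht
      have h1 : β (un X (k + t + 1)) ≤ β (un X (k + K + 1)) := hmono (by omega : k + t ≤ k + K)
      have : R * (β (un X (k + t + 1)) - β (un X (k + 1))) ≤
          R * (β (un X (k + K + 1)) - β (un X (k + 1))) :=
        mul_le_mul_of_nonneg_left (by linarith) hR.le
      linarith
  · set B : ℝ := c / (|C| + 1) with hB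
    have hB0 : 0 < B := by positivity
    have hbd : BddAbove (Set.range fun n => β (un X (n + 1))) :=
      ⟨M, by rintro _ ⟨n, rfl⟩; exact hM _⟩
    have hconv : Tendsto (fun n => β (un X (n + 1))) atTop (𝓝 (⨆ n, β (un X (n + 1)))) :=
      tendsto_atTop_ciSup hmono hbd
    set L := ⨆ n, β (un X (n + 1)) with hL
    have hle : ∀ n, β (un X (n + 1)) ≤ L := fun n =>
      le_ciSup (f := fun n => β (un X (n + 1))) hbd n
    obtain ⟨N, hN1, hN2⟩ := ((hconv.eventually (lt_mem_nhds (show L - B / R < L by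
      have : 0 < B / R := by positivity
      linarith))).and (eventually_ge_atTop k)).exists
    refine ⟨N, hN2, B, hB0, ?_, ?_⟩
    · filter_upwards [hC, ff_tendsto.eventually_gt_atTop 0] with x hx hx0
      have h1 : H x ≤ (|C| + 1) * ff x := hx.trans (mul_le_mul_of_nonneg_right
        (by linarith [le_abs_self C]) hx0.le)
      calc B * H x ≤ B * ((|C| + 1) * ff x) := mul_le_mul_of_nonneg_left h1 hB0.le
        _ = c * ff x := by rw [hB]; field_simp
    · intro t _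
      have h1 := hle (N + t)
      have h2 : β (un X (N + t + 1)) - β (un X (N + 1)) ≤ B / R := by linarith
      calc _ ≤ R * (B / R) := mul_le_mul_of_nonneg_left h2 hR.le
        _ = B := by field_simp

/-- coarsening with prescribed cut points -/
theorem coarsenS {X : ℕ → Finset ℕ} (hX : Blk X) (k N K m : ℕ) (hN : k ≤ N)
    (j : Fin (m + 1) → Fin K) (hj : StrictMono j) :
    ∃ Y, Blk Y ∧ Le Y X ∧ (∀ i < k, Y i = X i) ∧ ∀ i : Fin (m + 1),
      un Y (k + 1 + i) = un X (N + j i + 1) := by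
  classical
  set μ : ℕ → ℕ := fun l => if l ≤ k then l else
    if h : l - (k + 1) < m + 1 then N + j ⟨l - (k + 1), h⟩ + 1 else N + K + l with hμ
  have hμm : StrictMono μ := by
    refine strictMono_nat_of_lt_succ fun l => ?_
    simp only [hμ]
    by_cases h0 : l + 1 ≤ k
    · rw [if_pos (by omega), if_pos h0]
      omega
    · rw [if_neg h0]
      by_cases h1 : l ≤ k
      · rw [if_pos h1]
        split_ifs
        · omega
        · omega
      · rw [if_neg h1]
        by_cases h2 : l + 1 - (k + 1) < m + 1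
        · rw [dif_pos (by omega : l - (k + 1) < m + 1), dif_pos h2]
          have h3 : j ⟨l - (k + 1), by omega⟩ < j ⟨l + 1 - (k + 1), h2⟩ := hj (by
            rw [Fin.lt_def]
            simp only
            omega)
          have h4 : ((j ⟨l - (k + 1), by omega⟩ : Fin K) : ℕ) <
              (j ⟨l + 1 - (k + 1), h2⟩ : Fin K) := h3
          omega
        · rw [dif_neg h2]
          by_cases h3 : l - (k + 1) < m + 1
          · rw [dif_pos h3]
            have := (j ⟨l - (k + 1), h3⟩).2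
            omega
          · rw [dif_neg h3]
            omega
  have hμ0 : μ 0 = 0 := by
    simp only [hμ]
    rw [if_pos (Nat.zero_le k)]
  set I : ℕ → Finset ℕ := fun i => Finset.Ico (μ i) (μ (i + 1)) with hI
  have hIB : Blk I := by
    refine ⟨fun i => Finset.nonempty_Ico.2 (hμm (Nat.lt_succ_self _)), fun i x hx y hy => ?_⟩
    simp only [hI, mem_Ico] at hx hy
    omega
  have hun : ∀ n, un (fun i => (I i).biUnion X) n = un X (μ n) := by
    intro n
    induction n with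
    | zero => unfold un; rw [hμ0]; simp
    | succ n ih =>
      rw [un_succ, ih]
      unfold un
      have : range (μ (n + 1)) = range (μ n) ∪ I n := by
        ext x
        simp only [hI, mem_range, mem_union, mem_Ico]
        have h5 : μ n < μ (n + 1) := hμm (Nat.lt_succ_self n)
        omega
      rw [this, Finset.union_biUnion]
  refine ⟨fun i => (I i).biUnion X, hIB.comp hX, fun i => ⟨I i, hIB.1 i, rfl⟩, fun i hi => ?_,
    fun i => ?_⟩
  · have : I i = {i} := by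
      ext x
      simp only [hI, hμ, mem_Ico, mem_singleton]
      rw [if_pos (by omega : i ≤ k), if_pos (by omega : i + 1 ≤ k)]
      omega
    beta_reduce
    rw [this, singleton_biUnion]
  · rw [hun]
    congr 1
    simp only [hμ]
    rw [if_neg (by omega : ¬ k + 1 + (i : ℕ) ≤ k)]
    have h1 : k + 1 + (i : ℕ) - (k + 1) = i := by omega
    rw [dif_pos (by rw [h1]; exact i.2)]
    congr 3
    exact congrArg j (Fin.ext h1)

theorem exSF {H : ℝ → ℝ} (hH : Scale H) (m : ℕ) {q r : ℕ} (hq : Squarefree q) (hr : r.Coprime q)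
    (k : ℕ) {β : Finset ℕ → ℝ} (hβ : Inc β) (hA : AdmS H β) (ρ : (Fin k → Finset ℕ) → ℝ)
    (hρ : ∀ P, 0 < ρ P) (X : ℕ → Finset ℕ) (hX : Blk X) :
    ∃ Y, Blk Y ∧ Le Y X ∧ gdF H m q r k β ρ Y := by
  obtain ⟨K, c, hc, hlp⟩ := lpH m
  set R := ρ (fun l => X l) with hR
  have hR0 : 0 < R := hρ _
  obtain ⟨N, hkN, B, hB, hBH, hps⟩ := roomS hβ hA hX k K R hR0 c hc
  have hmono := un_mono hβ hX
  obtain ⟨j, hj, hl⟩ := hlp H hH B hB hBH q hq r hr
    (fun t => R * (β (un X (N + t + 1)) - β (un X (N + 1))))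
    (fun s t hst => mul_lt_mul_of_pos_left (by
      have : β (un X (N + s + 1)) < β (un X (N + t + 1)) := hmono (by
        have : (s : ℕ) < t := hst
        omega)
      linarith) hR0)
    (fun t => ⟨mul_nonneg hR0.le (by
      have : β (un X (N + 1)) ≤ β (un X (N + t + 1)) := hmono.monotone (Nat.le_add_right N t)
      linarith), hps t t.2.le⟩)
  obtain ⟨Y, hY1, hY2, hY3, hY4⟩ := coarsenS hX k N K m hkN j hj
  refine ⟨Y, hY1, hY2, ?_⟩
  unfold gdF
  have e1 : (fun l : Fin k => Y l) = fun l : Fin k => X l := funext fun l => hY3 l l.2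
  rw [e1, ← hR]
  convert hl using 1
  funext i
  have h1 := hY4 i.succ
  have h2 := hY4 i.castSucc
  simp only [Fin.val_succ, Fin.val_castSucc] at h1 h2
  rw [h1, h2]
  ring

theorem exSR {H : ℝ → ℝ} (hH : Scale H) (m : ℕ) {q r : ℕ} (hq : Squarefree q) (hr : r.Coprime q)
    (k : ℕ) {β : Finset ℕ → ℝ} (hβ : Inc β) (hA : AdmS H β) (ρ : (Fin k → Finset ℕ) → ℝ)
    (hρ : ∀ P, 0 < ρ P) (X : ℕ → Finset ℕ) (hX : Blk X) :
    ∃ Y, Blk Y ∧ Le Y X ∧ gdR H m q r k β ρ Y := by
  obtain ⟨K, c, hc, hlp⟩ := lpH m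
  set R := ρ (fun l => X l) with hR
  have hR0 : 0 < R := hρ _
  obtain ⟨N, hkN, B, hB, hBH, hps⟩ := roomS hβ hA hX k K R hR0 c hc
  have hmono := un_mono hβ hX
  obtain ⟨j, hj, hl⟩ := hlp H hH B hB hBH q hq r hr
    (fun t => R * (β (un X (N + K + 1)) - β (un X (N + (Fin.rev t : Fin K) + 1))))
    (fun s t hst => mul_lt_mul_of_pos_left (by
      have : β (un X (N + (Fin.rev t : Fin K) + 1)) < β (un X (N + (Fin.rev s : Fin K) + 1)) :=
        hmono (by
          have : ((Fin.rev t : Fin K) : ℕ) < (Fin.rev s : Fin K) := Fin.rev_lt_rev.2 hst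
          omega)
      linarith) hR0)
    (fun t => ⟨mul_nonneg hR0.le (by
      have : β (un X (N + (Fin.rev t : Fin K) + 1)) ≤ β (un X (N + K + 1)) :=
        hmono.monotone (show N + ((Fin.rev t : Fin K) : ℕ) ≤ N + K by
          have := (Fin.rev t : Fin K).2
          omega)
      linarith), by
        have h1 := hps K le_rfl
        have h2 : β (un X (N + 1)) ≤ β (un X (N + (Fin.rev t : Fin K) + 1)) :=
          hmono.monotone (Nat.le_add_right N (Fin.rev t : Fin K))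
        have h3 : R * (β (un X (N + K + 1)) - β (un X (N + (Fin.rev t : Fin K) + 1))) ≤
          R * (β (un X (N + K + 1)) - β (un X (N + 1))) :=
            mul_le_mul_of_nonneg_left (by linarith) hR0.le
        linarith⟩)
  have hj' : StrictMono (fun i : Fin (m + 1) => Fin.rev (j (Fin.rev i))) := fun a b hab =>
    Fin.rev_lt_rev.2 (hj (Fin.rev_lt_rev.2 hab))
  obtain ⟨Y, hY1, hY2, hY3, hY4⟩ := coarsenS hX k N K m hkN _ hj'
  refine ⟨Y, hY1, hY2, ?_⟩
  unfold gdR
  have e1 : (fun l : Fin k => Y l) = fun l : Fin k => X l := funext fun l => hY3 l l.2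
  rw [e1, ← hR]
  convert hl using 1
  funext i
  have h1 := hY4 (Fin.rev i).succ
  have h2 := hY4 (Fin.rev i).castSucc
  have e2 : Fin.rev (Fin.rev i).succ = i.castSucc := by
    rw [Fin.rev_succ, Fin.rev_rev]
  have e3 : Fin.rev (Fin.rev i).castSucc = i.succ := by
    rw [Fin.rev_castSucc, Fin.rev_rev]
  rw [e2] at h1
  rw [e3] at h2
  rw [Fin.val_succ] at h1
  rw [Fin.val_castSucc] at h2
  rw [h1, h2]
  ring

theorem un_congr {C C' : ℕ → Finset ℕ} {n : ℕ} (h : ∀ i < n, C' i = C i) : un C' n = un C n := by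
  unfold un
  exact Finset.biUnion_congr rfl fun i hi => h i (mem_range.1 hi)

theorem gdF_congr {H : ℝ → ℝ} {m q r k : ℕ} {β : Finset ℕ → ℝ} {ρ : (Fin k → Finset ℕ) → ℝ}
    {C C' : ℕ → Finset ℕ} (h : ∀ i < k + 1 + m, C' i = C i) (hg : gdF H m q r k β ρ C') :
    gdF H m q r k β ρ C := by
  unfold gdF at hg ⊢
  have e1 : (fun l : Fin k => C' l) = fun l : Fin k => C l := funext fun l => h l (by omega)
  rw [e1] at hg
  convert hg using 1
  funext i
  rw [un_congr (C := C) (C' := C') (n := k + 1 + (i + 1)) fun l hl => h l (by omega),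
    un_congr (C := C) (C' := C') (n := k + 1 + i) fun l hl => h l (by omega)]

theorem gdR_congr {H : ℝ → ℝ} {m q r k : ℕ} {β : Finset ℕ → ℝ} {ρ : (Fin k → Finset ℕ) → ℝ}
    {C C' : ℕ → Finset ℕ} (h : ∀ i < k + 1 + m, C' i = C i) (hg : gdR H m q r k β ρ C') :
    gdR H m q r k β ρ C := by
  unfold gdR at hg ⊢
  have e1 : (fun l : Fin k => C' l) = fun l : Fin k => C l := funext fun l => h l (by omega)
  rw [e1] at hg
  convert hg using 1
  funext i
  have := (Fin.rev i).2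
  rw [un_congr (C := C) (C' := C') (n := k + 1 + ((Fin.rev i : Fin m) + 1))
    fun l hl => h l (by omega), un_congr (C := C) (C' := C') (n := k + 1 + (Fin.rev i : Fin m))
    fun l hl => h l (by omega)]

/-- the families -/
def fa (H : ℕ → ℝ → ℝ) (β : ℕ → Finset ℕ → ℝ) (q r : ℕ → ℕ)
    (ρ : ℕ → ∀ k, (Fin k → Finset ℕ) → ℝ) (s k m b : ℕ) (Z : ℕ → Finset ℕ) : Prop :=
  if b = 0 then gdF (H s) m (q s) (r s) k (β s) (ρ s k) Z
  else gdR (H s) m (q s) (r s) k (β s) (ρ s k) Z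

/-- the families, enumerated -/
def fe (H : ℕ → ℝ → ℝ) (β : ℕ → Finset ℕ → ℝ) (q r : ℕ → ℕ)
    (ρ : ℕ → ∀ k, (Fin k → Finset ℕ) → ℝ) (t : ℕ) (Z : ℕ → Finset ℕ) : Prop :=
  fa H β q r ρ (Nat.unpair (Nat.unpair t).1).1 (Nat.unpair (Nat.unpair t).1).2
    (Nat.unpair (Nat.unpair t).2).1 (Nat.unpair (Nat.unpair t).2).2 Z

theorem fe_pair (H : ℕ → ℝ → ℝ) (β : ℕ → Finset ℕ → ℝ) (q r : ℕ → ℕ)
    (ρ : ℕ → ∀ k, (Fin k → Finset ℕ) → ℝ) (s k m b : ℕ) (Z : ℕ → Finset ℕ)
    (h : fe H β q r ρ (Nat.pair (Nat.pair s k) (Nat.pair m b)) Z) : fa H β q r ρ s k m b Z := by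
  unfold fe at h
  rw [Nat.unpair_pair] at h
  simp only [] at h
  rw [Nat.unpair_pair, Nat.unpair_pair] at h
  exact h

/-- **Record gaps and increasing set functions.** -/
theorem mainS (H : ℕ → ℝ → ℝ) (hH : ∀ s, Scale (H s)) (β : ℕ → Finset ℕ → ℝ)
    (hβ : ∀ s, Inc (β s)) (hc : ∀ s, AdmS (H s) (β s))
    (q r : ℕ → ℕ) (hq : ∀ s, Squarefree (q s)) (hr : ∀ s, (r s).Coprime (q s))
    (ρ : ℕ → ∀ k, (Fin k → Finset ℕ) → ℝ) (hρ : ∀ s k P, 0 < ρ s k P) :
    ∃ W : ℕ → Finset ℕ, (∀ i, (W i).Nonempty) ∧ (∀ i, ∀ a ∈ W i, ∀ b ∈ W (i + 1), a < b) ∧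
      ∀ s k m : ℕ, ∃ N : ℕ, ∀ F : ℕ → Finset ℕ, (∀ l < k + 1 + m, (F l).Nonempty) →
        (∀ l < k + 1 + m, ∀ i ∈ F l, N ≤ i) →
        (∀ l, l + 1 < k + 1 + m → ∀ i ∈ F l, ∀ i' ∈ F (l + 1), i < i') →
        (fun i : Fin m => ρ s k (fun l => (F l).biUnion W) *
          (β s ((un F (k + 1 + (i + 1))).biUnion W) - β s ((un F (k + 1 + i)).biUnion W))) ∈
            LimH (H s) m (q s) (r s) ∧
        (fun i : Fin m => ρ s k (fun l => (F l).biUnion W) *
          (β s ((un F (k + 1 + ((Fin.rev i : Fin m) + 1))).biUnion W) -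
            β s ((un F (k + 1 + (Fin.rev i : Fin m))).biUnion W))) ∈
              LimH (H s) m (q s) (r s) := by
  classical
  obtain ⟨W, hW, hfam⟩ := closed_families (fe H β q r ρ) (by
      intro t Z _ hg
      refine ⟨(Nat.unpair (Nat.unpair t).1).2 + 1 + (Nat.unpair (Nat.unpair t).2).1,
        fun Z' _ h hg' => hg ?_⟩
      unfold fe fa at hg' ⊢
      split_ifs at hg' ⊢ with hb
      · exact gdF_congr h hg'
      · exact gdR_congr h hg') (by
      intro t X hX
      unfold fe fa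
      split_ifs with hb
      · exact exSF (hH _) _ (hq _) (hr _) _ (hβ _) (hc _) _ (fun P => hρ _ _ P) X hX
      · exact exSR (hH _) _ (hq _) (hr _) _ (hβ _) (hc _) _ (fun P => hρ _ _ P) X hX)
  refine ⟨W, hW.1, hW.2, fun s k m => ?_⟩
  set c0 := Nat.pair (Nat.pair s k) (Nat.pair m 0) with hc0
  set c1 := Nat.pair (Nat.pair s k) (Nat.pair m 1) with hc1
  refine ⟨max c0 c1, fun F h1 h2 h3 => ?_⟩
  have hunF : ∀ (Z : ℕ → Finset ℕ), (∀ l < k + 1 + m, Z l = (F l).biUnion W) →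
      ∀ n ≤ k + 1 + m, un Z n = (un F n).biUnion W := by
    intro Z hZ n hn
    unfold un
    rw [Finset.biUnion_biUnion]
    exact Finset.biUnion_congr rfl fun l hl => hZ l (by have := mem_range.1 hl; omega)
  constructor
  · obtain ⟨Z, hZ, hZW, hZF⟩ := extend hW c0 (k + 1 + m) h1
      (fun l hl i hi => (le_max_left _ _).trans (h2 l hl i hi)) h3
    have h4 := fe_pair _ _ _ _ _ s k m 0 Z (hfam c0 Z hZ hZW)
    unfold fa at h4
    rw [if_pos rfl] at h4
    unfold gdF at h4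
    convert h4 using 1
    funext i
    rw [hunF Z hZF _ (by omega), hunF Z hZF _ (by omega)]
    congr 2
    funext l
    rw [hZF l (by omega)]
  · obtain ⟨Z, hZ, hZW, hZF⟩ := extend hW c1 (k + 1 + m) h1
      (fun l hl i hi => (le_max_right _ _).trans (h2 l hl i hi)) h3
    have h4 := fe_pair _ _ _ _ _ s k m 1 Z (hfam c1 Z hZ hZW)
    unfold fa at h4
    rw [if_neg one_ne_zero] at h4
    unfold gdR at h4
    convert h4 using 1
    funext i
    have := (Fin.rev i).2
    rw [hunF Z hZF _ (by omega), hunF Z hZF _ (by omega)]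
    congr 2
    funext l
    rw [hZF l (by omega)]

end Pool.Agent.J6H10.SF
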